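import Pool.Agent.helper36.MP.SpecZ

set_option autoImplicit false

open Complex Metric Set Filter Topology MeasureTheory

noncomputable section

namespace MPS

theorem ZBC : ZBC_stmt := by
  intro ρ c r hr hd h1
  have hne : ∀ z ∈ ball c r, ρ z ≠ 0 := by
    intro z hz h0
    have := h1 z hz
    rw [h0, norm_zero] at this
    linarith
  have hc : c ∈ ball c r := mem_ball_self hr
  have hg : DifferentiableOn ℂ (fun z => deriv ρ z / ρ z) (ball c r) :=
    (hd.deriv isOpen_ball).div hd hne
  obtain ⟨L, hLc, hL⟩ := hg.isExactOn_ball.with_val_at c (Complex.log (ρ c))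
  have hρ : ∀ z ∈ ball c r, HasDerivAt ρ (deriv ρ z) z := fun z hz =>
    ((hd z hz).differentiableAt (isOpen_ball.mem_nhds hz)).hasDerivAt
  -- exp (-L) * ρ is constant
  have hE : ∀ z ∈ ball c r, HasDerivAt (fun w => Complex.exp (-L w) * ρ w) 0 z := by
    intro z hz
    have h2 := ((hL z hz).neg.cexp).mul (hρ z hz)
    have e : Complex.exp (-L z) * -(deriv ρ z / ρ z) * ρ z + Complex.exp (-L z) * deriv ρ z = 0 := by
      have := hne z hz
      field_simp
      ring
    rw [← e]
    exact h2
  have hconst : ∀ z ∈ ball c r, Complex.exp (-L z) * ρ z = 1 := by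
    intro z hz
    have h3 : Complex.exp (-L z) * ρ z = Complex.exp (-L c) * ρ c := by
      refine (convex_ball c r).is_const_of_fderivWithin_eq_zero (𝕜 := ℂ)
        (f := fun w => Complex.exp (-L w) * ρ w) ?_ ?_ hz hc
      · exact fun w hw => (hE w hw).differentiableAt.differentiableWithinAt
      · intro w hw
        rw [fderivWithin_of_isOpen isOpen_ball hw]
        ext
        simpa using (hE w hw).deriv
    rw [h3, hLc, Complex.exp_neg, Complex.exp_log (hne c hc), inv_mul_cancel₀ (hne c hc)]
  have hexp : ∀ z ∈ ball c r, ρ z = Complex.exp (L z) := by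
    intro z hz
    have h4 := hconst z hz
    rw [Complex.exp_neg] at h4
    field_simp at h4
    exact h4
  have hre : ∀ z ∈ ball c r, Real.log ‖ρ z‖ = (L z).re := by
    intro z hz
    rw [hexp z hz, Complex.norm_exp, Real.log_exp]
  have hpos : ∀ z ∈ ball c r, 0 < (L z).re := by
    intro z hz
    rw [← hre z hz]
    exact Real.log_pos (h1 z hz)
  set a := L c with ha
  have ha0 : 0 < a.re := hpos c hc
  have hden : ∀ z ∈ ball c r, L z + (starRingEnd ℂ) a ≠ 0 := by
    intro z hz h0
    have := congrArg Complex.re h0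
    simp at this
    have := hpos z hz
    linarith
  have hφd : ∀ z ∈ ball c r, HasDerivAt (fun w => (L w - a) / (L w + (starRingEnd ℂ) a))
      ((deriv ρ z / ρ z * (L z + (starRingEnd ℂ) a) - (L z - a) * (deriv ρ z / ρ z)) /
        (L z + (starRingEnd ℂ) a) ^ 2) z := by
    intro z hz
    exact ((hL z hz).sub_const a).div ((hL z hz).add_const _) (hden z hz)
  have hmaps : MapsTo (fun w => (L w - a) / (L w + (starRingEnd ℂ) a)) (ball c r)
      (closedBall ((fun w => (L w - a) / (L w + (starRingEnd ℂ) a)) c) 1) := by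
    intro z hz
    have e0 : (fun w => (L w - a) / (L w + (starRingEnd ℂ) a)) c = 0 := by simp [ha]
    rw [e0, mem_closedBall, dist_zero_right, norm_div,
      div_le_one (norm_pos_iff.mpr (hden z hz))]
    rw [← sq_le_sq₀ (norm_nonneg _) (norm_nonneg _), ← Complex.normSq_eq_norm_sq,
      ← Complex.normSq_eq_norm_sq, Complex.normSq_apply, Complex.normSq_apply]
    simp only [Complex.sub_re, Complex.sub_im, Complex.add_re, Complex.add_im, Complex.conj_re,
      Complex.conj_im]
    have := mul_pos (hpos z hz) ha0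
    nlinarith
  have hS := Complex.norm_deriv_le_div_of_mapsTo_ball
    (fun z hz => (hφd z hz).differentiableAt.differentiableWithinAt) hmaps hr
  rw [(hφd c hc).deriv] at hS
  have e1 : (deriv ρ c / ρ c * (L c + (starRingEnd ℂ) a) - (L c - a) * (deriv ρ c / ρ c)) /
        (L c + (starRingEnd ℂ) a) ^ 2 = (deriv ρ c / ρ c) / (2 * a.re : ℝ) := by
    have h5 : L c + (starRingEnd ℂ) a = ((2 * a.re : ℝ) : ℂ) := by
      rw [← ha, Complex.add_conj]
    rw [h5, ← ha, sub_self, zero_mul, sub_zero, sq, mul_div_mul_right]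
    exact_mod_cast (by positivity : (2 * a.re : ℝ) ≠ 0)
  rw [e1, norm_div, Complex.norm_real, Real.norm_of_nonneg (by positivity),
    div_le_iff₀ (by positivity)] at hS
  rw [hre c hc]
  calc ‖deriv ρ c / ρ c‖ ≤ 1 / r * (2 * a.re) := hS
    _ = 2 * (L c).re / r := by rw [← ha]; ring

end MPS
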